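import Mathlib
import Pool.Agent.Work.MP_44129c_co.Defs

/-!
# MP_44129c_co, small cases by a certificate (helper24)

`chk N m l [0] = true` for an explicit list `l` of tokens (a search tree whose leaves carry
explicit zero-sum double stars) implies that no symmetric `c : Fin N → Fin N → ZMod m` is `ZSF`.

Normalisation: the colour of the edge `01` is `0` and the colours of `01, 02, ..., 0(N-1)` are
increasing.  A partial colouring is a number `A`: four binary digits for every pair `(u, v)`,
value `0`: unknown, value `g + 1`: colour `g`.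
-/

set_option autoImplicit false

namespace ZS44129.Small

open Finset

/-- entry of the partial colouring `A`. -/
def gt (N A u v : ℕ) : ℕ := Nat.land (Nat.shiftRight A (4 * (N * u + v))) 15

/-- give the edge `uv` the colour `g`. -/
def st (N A u v g : ℕ) : ℕ :=
  Nat.lor (Nat.lor A (Nat.shiftLeft (g + 1) (4 * (N * u + v))))
    (Nat.shiftLeft (g + 1) (4 * (N * v + u)))

/-- verify a double star with centre edge `uv`; `w` codes the leaves (two digits each). -/
def lchk (N m A u v w : ℕ) : ℕ → ℕ → ℕ → Bool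
  | 0, cnt, s => and (Nat.beq (cnt + 1) m) (Nat.beq (s % m) 0)
  | x + 1, cnt, s =>
    match Nat.land (Nat.shiftRight w (2 * x)) 3 with
    | 0 => lchk N m A u v w x cnt s
    | 1 => and (and (not (Nat.beq (gt N A u x) 0)) (and (not (Nat.beq x u)) (not (Nat.beq x v))))
        (lchk N m A u v w x (cnt + 1) (s + gt N A u x - 1))
    | _ => and (and (not (Nat.beq (gt N A v x) 0)) (and (not (Nat.beq x u)) (not (Nat.beq x v))))
        (lchk N m A u v w x (cnt + 1) (s + gt N A v x - 1))

/-- a leaf of the tree. -/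
def leaf (N m A t : ℕ) : Bool :=
  let u := t % 16
  let v := t / 16 % 16
  and (and (and (Nat.blt u N) (Nat.blt v N)) (and (not (Nat.beq u v))
    (not (Nat.beq (gt N A u v) 0))))
    (lchk N m A u v (t / 256) N 0 (gt N A u v - 1))

/-- push the partial colourings with `uv` of colour `g - 1, ..., 0`. -/
def push (N A u v : ℕ) (S : List ℕ) : ℕ → List ℕ
  | 0 => S
  | g + 1 => push N A u v (st N A u v g :: S) g

/-- the checker. -/
def chk (N m : ℕ) : List ℕ → List ℕ → Bool
  | _, [] => true
  | [], _ :: _ => false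
  | t :: l, A :: S =>
    match Nat.land t 3 with
    | 0 => and (leaf N m A (t / 4)) (chk N m l S)
    | 1 => and (and (Nat.blt (t / 4 % 16) N) (Nat.blt (t / 64 % 16) N))
        (chk N m l (push N A (t / 4 % 16) (t / 64 % 16) S m))
    | 2 => and (and (and (Nat.blt 0 (t / 4)) (Nat.blt (t / 4 + 1) N))
        (and (not (Nat.beq (gt N A 0 (t / 4 + 1)) 0))
          (Nat.blt (gt N A 0 (t / 4 + 1)) (gt N A 0 (t / 4))))) (chk N m l S)
    | _ => and (and (Nat.blt 1 N) (Nat.blt 1 (gt N A 0 1))) (chk N m l S)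

/-! ### soundness -/

/-- the digit of a shifted number. -/
theorem digit_shift (a i j : ℕ) (ha : a < 16) :
    Nat.land (Nat.shiftRight (Nat.shiftLeft a (4 * i)) (4 * j)) 15 = if i = j then a else 0 := by
  have e1 : Nat.land (Nat.shiftRight (Nat.shiftLeft a (4 * i)) (4 * j)) 15
      = ((a <<< (4 * i)) >>> (4 * j)) &&& 15 := rfl
  rw [e1]
  have e2 : ∀ n : ℕ, n &&& 15 = n % 16 := fun n => Nat.and_two_pow_sub_one_eq_mod n 4
  rw [e2, Nat.shiftLeft_eq, Nat.shiftRight_eq_div_pow]
  have e3 : ∀ k : ℕ, 2 ^ (4 * k) = 16 ^ k := fun k => by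
    rw [pow_mul]; norm_num
  rw [e3, e3]
  rcases lt_trichotomy i j with h | h | h
  · rw [if_neg (by omega)]
    have h1 : a * 16 ^ i < 16 ^ j := by
      calc a * 16 ^ i < 16 * 16 ^ i := by
            apply Nat.mul_lt_mul_of_pos_right ha (by positivity)
        _ = 16 ^ (i + 1) := by ring
        _ ≤ 16 ^ j := Nat.pow_le_pow_right (by norm_num) h
    rw [Nat.div_eq_of_lt h1]
  · subst h
    rw [if_pos rfl, Nat.mul_div_cancel _ (by positivity)]
    exact Nat.mod_eq_of_lt ha
  · rw [if_neg (by omega)]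
    obtain ⟨d, rfl⟩ : ∃ d, i = j + (d + 1) := ⟨i - j - 1, by omega⟩
    have h1 : a * 16 ^ (j + (d + 1)) = (a * 16 ^ d * 16) * 16 ^ j := by
      rw [pow_add, pow_succ]; ring
    rw [h1, Nat.mul_div_cancel _ (by positivity)]
    exact Nat.mul_mod_left _ _

theorem gt_st (N A u v g u' v' : ℕ) (hg : g + 1 < 16) (hu : u < N) (hv : v < N) (hu' : u' < N)
    (hv' : v' < N) :
    gt N (st N A u v g) u' v' = (gt N A u' v' ||| (if u = u' ∧ v = v' then g + 1 else 0)) |||
      (if v = u' ∧ u = v' then g + 1 else 0) := by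
  have key : ∀ a b : ℕ, a < N → b < N → (N * a + b = N * u' + v' ↔ a = u' ∧ b = v') := by
    intro a b ha hb
    constructor
    · intro h
      have h1 : (N * a + b) / N = (N * u' + v') / N := by rw [h]
      have hN : 0 < N := by omega
      rw [Nat.mul_add_div hN, Nat.mul_add_div hN, Nat.div_eq_of_lt hb, Nat.div_eq_of_lt hv'] at h1
      have h2 : a = u' := by omega
      subst h2
      exact ⟨rfl, by omega⟩
    · rintro ⟨rfl, rfl⟩; rfl
  unfold gt st
  have d1 := digit_shift (g + 1) (N * u + v) (N * u' + v') hg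
  have d2 := digit_shift (g + 1) (N * v + u) (N * u' + v') hg
  have e : ∀ x y z : ℕ, Nat.land (Nat.shiftRight (Nat.lor (Nat.lor x y) z) (4 * (N * u' + v'))) 15
      = (Nat.land (Nat.shiftRight x (4 * (N * u' + v'))) 15 |||
        Nat.land (Nat.shiftRight y (4 * (N * u' + v'))) 15) |||
        Nat.land (Nat.shiftRight z (4 * (N * u' + v'))) 15 := by
    intro x y z
    change (((x ||| y) ||| z) >>> (4 * (N * u' + v'))) &&& 15
      = (((x >>> (4 * (N * u' + v'))) &&& 15) ||| ((y >>> (4 * (N * u' + v'))) &&& 15)) |||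
        ((z >>> (4 * (N * u' + v'))) &&& 15)
    apply Nat.eq_of_testBit_eq
    intro i
    simp only [Nat.testBit_and, Nat.testBit_or, Nat.testBit_shiftRight]
    cases Nat.testBit x (4 * (N * u' + v') + i) <;> cases Nat.testBit y (4 * (N * u' + v') + i) <;>
      cases Nat.testBit z (4 * (N * u' + v') + i) <;> cases Nat.testBit 15 i <;> rfl
  rw [e, d1, d2]
  congr 1
  · congr 1
    by_cases h : u = u' ∧ v = v'
    · rw [if_pos h, if_pos ((key u v hu hv).2 h)]
    · rw [if_neg h, if_neg (fun h1 => h ((key u v hu hv).1 h1))]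
  · by_cases h : v = u' ∧ u = v'
    · rw [if_pos h, if_pos ((key v u hv hu).2 h)]
    · rw [if_neg h, if_neg (fun h1 => h ((key v u hv hu).1 h1))]

/-- `A` is a partial colouring of `c`. -/
def Good (N : ℕ) (c : ℕ → ℕ → ℕ) (A : ℕ) : Prop :=
  ∀ u v, u < N → v < N → gt N A u v = 0 ∨ gt N A u v = c u v + 1

/-- no zero-sum double star, natural numbers. -/
def ZN (N m : ℕ) (c : ℕ → ℕ → ℕ) : Prop :=
  ∀ u v, u < N → v < N → u ≠ v → ∀ X Y : Finset ℕ, X ⊆ range N → Y ⊆ range N → Disjoint X Y →
    u ∉ X → v ∉ X → u ∉ Y → v ∉ Y → X.card + Y.card + 1 = m →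
      (c u v + ∑ x ∈ X, c u x + ∑ y ∈ Y, c v y) % m ≠ 0

theorem good_st {N : ℕ} {c : ℕ → ℕ → ℕ} {A u v g : ℕ} (hG : Good N c A)
    (hs : ∀ x y, x < N → y < N → c x y = c y x) (hu : u < N) (hv : v < N)
    (hg : g + 1 < 16) (hc : c u v = g) : Good N c (st N A u v g) := by
  intro u' v' hu' hv'
  rw [gt_st N A u v g u' v' hg hu hv hu' hv']
  have hc2 : c v u = g := by rw [hs v u hv hu]; exact hc
  by_cases h1 : u = u' ∧ v = v'
  · rw [if_pos h1]
    obtain ⟨rfl, rfl⟩ := h1
    right
    rw [hc]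
    rcases hG u v hu hv with h | h
    · rw [h]
      by_cases h2 : v = u ∧ u = v
      · rw [if_pos h2]; simp
      · rw [if_neg h2]; simp
    · rw [h, hc]
      by_cases h2 : v = u ∧ u = v
      · rw [if_pos h2]; simp
      · rw [if_neg h2]; simp
  · rw [if_neg h1]
    by_cases h2 : v = u' ∧ u = v'
    · rw [if_pos h2]
      obtain ⟨rfl, rfl⟩ := h2
      right
      rw [hc2]
      rcases hG v u hv hu with h | h
      · rw [h]; simp
      · rw [h, hc2]; simp
    · rw [if_neg h2]
      simpa using hG u' v' hu' hv'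

theorem nbeq {a b : ℕ} (h : Nat.beq a b = true) : a = b := Nat.eq_of_beq_eq_true h

theorem nbne {a b : ℕ} (h : (not (Nat.beq a b)) = true) : a ≠ b := by
  intro hab
  subst hab
  rw [Nat.beq_refl] at h
  exact Bool.noConfusion h

theorem nblt {a b : ℕ} (h : Nat.blt a b = true) : a < b := by
  have := Nat.le_of_ble_eq_true h
  omega

theorem lchk_spec {N m A u v w : ℕ} {c : ℕ → ℕ → ℕ} (hG : Good N c A) (hu : u < N)
    (hv : v < N) : ∀ x cnt s, x ≤ N → lchk N m A u v w x cnt s = true →
    ∃ X Y : Finset ℕ, X ⊆ range x ∧ Y ⊆ range x ∧ Disjoint X Y ∧ u ∉ X ∧ v ∉ X ∧ u ∉ Y ∧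
      v ∉ Y ∧ cnt + X.card + Y.card + 1 = m ∧
      (s + ∑ x ∈ X, c u x + ∑ y ∈ Y, c v y) % m = 0 := by
  intro x
  induction x with
  | zero =>
    intro cnt s _ h
    rw [lchk, Bool.and_eq_true] at h
    refine ⟨∅, ∅, by simp, by simp, by simp, by simp, by simp, by simp, by simp, ?_, ?_⟩
    · simpa using nbeq h.1
    · simpa using nbeq h.2
  | succ x ih =>
    intro cnt s hx h
    rw [lchk] at h
    have hmono : range x ⊆ range (x + 1) := Finset.range_mono (by omega)
    split at h
    · obtain ⟨X, Y, h1, h2, h3, h4, h5, h6, h7, h8, h9⟩ := ih cnt s (by omega) h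
      exact ⟨X, Y, h1.trans hmono, h2.trans hmono, h3, h4, h5, h6, h7, h8, h9⟩
    · rw [Bool.and_eq_true, Bool.and_eq_true, Bool.and_eq_true] at h
      obtain ⟨⟨ha, hb, hc⟩, hd⟩ := h
      have ha' := nbne ha
      have hb' := nbne hb
      have hc' := nbne hc
      have hgt : gt N A u x = c u x + 1 := by
        rcases hG u x hu (by omega) with h0 | h0
        · exact absurd h0 ha'
        · exact h0
      rw [hgt] at hd
      obtain ⟨X, Y, h1, h2, h3, h4, h5, h6, h7, h8, h9⟩ := ih (cnt + 1) _ (by omega) hd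
      have hxX : x ∉ X := fun hh => by have := h1 hh; simp at this
      have hxY : x ∉ Y := fun hh => by have := h2 hh; simp at this
      refine ⟨insert x X, Y, ?_, h2.trans hmono, ?_, ?_, ?_, h6, h7, ?_, ?_⟩
      · intro z hz
        rw [mem_insert] at hz
        rcases hz with rfl | hz
        · simp
        · exact hmono (h1 hz)
      · rw [disjoint_insert_left]; exact ⟨hxY, h3⟩
      · rw [mem_insert]; push Not; exact ⟨fun hh => hb' hh.symm, h4⟩
      · rw [mem_insert]; push Not; exact ⟨fun hh => hc' hh.symm, h5⟩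
      · rw [card_insert_of_notMem hxX]; omega
      · rw [sum_insert hxX]
        have : s + (c u x + ∑ x ∈ X, c u x) + ∑ y ∈ Y, c v y =
          s + (c u x + 1) - 1 + ∑ x ∈ X, c u x + ∑ y ∈ Y, c v y := by omega
        rw [this]; exact h9
    · rw [Bool.and_eq_true, Bool.and_eq_true, Bool.and_eq_true] at h
      obtain ⟨⟨ha, hb, hc⟩, hd⟩ := h
      have ha' := nbne ha
      have hb' := nbne hb
      have hc' := nbne hc
      have hgt : gt N A v x = c v x + 1 := by
        rcases hG v x hv (by omega) with h0 | h0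
        · exact absurd h0 ha'
        · exact h0
      rw [hgt] at hd
      obtain ⟨X, Y, h1, h2, h3, h4, h5, h6, h7, h8, h9⟩ := ih (cnt + 1) _ (by omega) hd
      have hxX : x ∉ X := fun hh => by have := h1 hh; simp at this
      have hxY : x ∉ Y := fun hh => by have := h2 hh; simp at this
      refine ⟨X, insert x Y, h1.trans hmono, ?_, ?_, h4, h5, ?_, ?_, ?_, ?_⟩
      · intro z hz
        rw [mem_insert] at hz
        rcases hz with rfl | hz
        · simp
        · exact hmono (h2 hz)
      · rw [disjoint_insert_right]; exact ⟨hxX, h3⟩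
      · rw [mem_insert]; push Not; exact ⟨fun hh => hb' hh.symm, h6⟩
      · rw [mem_insert]; push Not; exact ⟨fun hh => hc' hh.symm, h7⟩
      · rw [card_insert_of_notMem hxY]; omega
      · rw [sum_insert hxY]
        have : s + ∑ x ∈ X, c u x + (c v x + ∑ y ∈ Y, c v y) =
          s + (c v x + 1) - 1 + ∑ x ∈ X, c u x + ∑ y ∈ Y, c v y := by omega
        rw [this]; exact h9

theorem leaf_spec {N m A t : ℕ} {c : ℕ → ℕ → ℕ} (hZ : ZN N m c) (h : leaf N m A t = true) :
    ¬ Good N c A := by
  intro hG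
  unfold leaf at h
  simp only [Bool.and_eq_true] at h
  obtain ⟨⟨⟨h1, h2⟩, h3, h4⟩, h5⟩ := h
  have h1' := nblt h1
  have h2' := nblt h2
  have h3' := nbne h3
  have h4' := nbne h4
  have hgt : gt N A (t % 16) (t / 16 % 16) = c (t % 16) (t / 16 % 16) + 1 := by
    rcases hG _ _ h1' h2' with h0 | h0
    · exact absurd h0 h4'
    · exact h0
  obtain ⟨X, Y, k1, k2, k3, k4, k5, k6, k7, k8, k9⟩ :=
    lchk_spec hG h1' h2' N 0 _ (le_refl N) h5
  refine hZ _ _ h1' h2' h3' X Y k1 k2 k3 k4 k5 k6 k7 (by omega) ?_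
  rw [hgt] at k9
  simpa using k9

theorem push_spec {N : ℕ} {A u v : ℕ} (S : List ℕ) (P : ℕ → Prop) :
    ∀ k, (∀ B ∈ push N A u v S k, P B) → (∀ g, g < k → P (st N A u v g)) ∧ ∀ B ∈ S, P B := by
  intro k
  induction k generalizing S with
  | zero => intro h; exact ⟨fun g hg => absurd hg (by omega), h⟩
  | succ k ih =>
    intro h
    rw [push] at h
    obtain ⟨h1, h2⟩ := ih (st N A u v k :: S) h
    refine ⟨fun g hg => ?_, fun B hB => h2 B (List.mem_cons_of_mem _ hB)⟩
    rcases Nat.lt_succ_iff_lt_or_eq.mp hg with h3 | h3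
    · exact h1 g h3
    · subst h3; exact h2 _ List.mem_cons_self

theorem chk_spec {N m : ℕ} {c : ℕ → ℕ → ℕ} (hm : m ≤ 14)
    (hs : ∀ x y, x < N → y < N → c x y = c y x) (hlt : ∀ x y, c x y < m) (hZ : ZN N m c)
    (h01 : c 0 1 = 0) (hsort : ∀ i, 1 ≤ i → i + 1 < N → c 0 i ≤ c 0 (i + 1)) :
    ∀ l S, chk N m l S = true → ∀ A ∈ S, ¬ Good N c A := by
  intro l
  induction l with
  | nil =>
    intro S h A hA
    cases S with
    | nil => simp at hA
    | cons B S => simp [chk] at h
  | cons t l ih =>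
    intro S h
    cases S with
    | nil => intro A hA; simp at hA
    | cons A S =>
      rw [chk] at h
      split at h
      · rw [Bool.and_eq_true] at h
        intro B hB
        rcases List.mem_cons.mp hB with rfl | hB
        · exact leaf_spec hZ h.1
        · exact ih S h.2 B hB
      · rw [Bool.and_eq_true, Bool.and_eq_true] at h
        obtain ⟨⟨h1, h2⟩, h3⟩ := h
        have h1' := nblt h1
        have h2' := nblt h2
        obtain ⟨k1, k2⟩ := push_spec S (fun B => ¬ Good N c B) m (ih _ h3)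
        intro B hB
        rcases List.mem_cons.mp hB with rfl | hB
        · intro hG
          have hlt' := hlt (t / 4 % 16) (t / 64 % 16)
          exact k1 (c (t / 4 % 16) (t / 64 % 16)) hlt'
            (good_st hG hs h1' h2' (by omega) rfl)
        · exact k2 B hB
      · rw [Bool.and_eq_true, Bool.and_eq_true, Bool.and_eq_true, Bool.and_eq_true] at h
        obtain ⟨⟨⟨h1, h2⟩, h3, h4⟩, h5⟩ := h
        have h1' := nblt h1
        have h2' := nblt h2
        have h3' := nbne h3
        have h4' := nblt h4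
        intro B hB
        rcases List.mem_cons.mp hB with rfl | hB
        · intro hG
          have e1 := hG 0 (t / 4 + 1) (by omega) h2'
          have e2 := hG 0 (t / 4) (by omega) (by omega)
          have e3 := hsort (t / 4) (by omega) h2'
          omega
        · exact ih S h5 B hB
      · rw [Bool.and_eq_true, Bool.and_eq_true] at h
        obtain ⟨⟨h1, h2⟩, h3⟩ := h
        have h1' := nblt h1
        have h2' := nblt h2
        intro B hB
        rcases List.mem_cons.mp hB with rfl | hB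
        · intro hG
          have e1 := hG 0 1 (by omega) (by omega)
          omega
        · exact ih S h3 B hB

theorem gt_zero (N u v : ℕ) : gt N 0 u v = 0 := by
  unfold gt
  change ((0 >>> (4 * (N * u + v))) &&& 15) = 0
  simp

/-- normalisation and soundness of the certificate. -/
theorem no_zsf_of_chk {n m : ℕ} (hn : 1 ≤ n) (hm : m ≤ 14) (hm0 : 0 < m) (l : List ℕ)
    (h : chk (n + 1) m l [0] = true) (c : Fin (n + 1) → Fin (n + 1) → ZMod m)
    (hs : ∀ x y, c x y = c y x) : ¬ ZSF m c := by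
  intro hz
  have _ : NeZero m := ⟨by omega⟩
  obtain ⟨k, rfl⟩ : ∃ k, n = k + 1 := ⟨n - 1, by omega⟩
  set f : Fin (k + 1) → ZMod m := fun i => c 0 i.succ with hf
  set a : ZMod m := f 0 with ha
  set g : Fin (k + 1) → ℕ := fun i => (f i - a).val with hg
  set σ := Tuple.sort g with hσ
  have hmono : Monotone (g ∘ σ) := Tuple.monotone_sort g
  set π : Fin (k + 2) → Fin (k + 2) := Fin.cons 0 (fun i => (σ i).succ) with hπ
  have hπinj : Function.Injective π := by
    rw [hπ, Fin.cons_injective_iff]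
    refine ⟨?_, fun i j hij => ?_⟩
    · rintro ⟨i, hi⟩
      exact Fin.succ_ne_zero _ hi
    · exact σ.injective (Fin.succ_injective _ hij)
  set p : ℕ → Fin (k + 2) := fun x => π (Fin.ofNat (k + 2) x) with hp
  have hpinj : Set.InjOn p (range (k + 2) : Finset ℕ) := by
    intro x hx y hy hxy
    have h1 := hπinj hxy
    have hx' : x < k + 2 := by simpa using hx
    have hy' : y < k + 2 := by simpa using hy
    have h2 : (Fin.ofNat (k + 2) x).val = (Fin.ofNat (k + 2) y).val := by rw [h1]
    simpa [Fin.ofNat, Nat.mod_eq_of_lt hx', Nat.mod_eq_of_lt hy'] using h2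
  set d : ℕ → ℕ → ℕ := fun x y => (c (p x) (p y) - a).val with hd
  have hp0 : p 0 = 0 := by
    rw [hp]
    change π (Fin.ofNat (k + 2) 0) = 0
    have : Fin.ofNat (k + 2) 0 = 0 := rfl
    rw [this, hπ]; rfl
  have hps : ∀ i, i < k + 1 → ∀ hi : i < k + 1, p (i + 1) = (σ ⟨i, hi⟩).succ := by
    intro i _ hi
    rw [hp]
    change π (Fin.ofNat (k + 2) (i + 1)) = _
    have : Fin.ofNat (k + 2) (i + 1) = (⟨i, hi⟩ : Fin (k + 1)).succ := by
      apply Fin.ext
      simp [Fin.ofNat, Nat.mod_eq_of_lt (show i + 1 < k + 2 by omega)]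
    rw [this, hπ, Fin.cons_succ]
  have hd0 : ∀ i (hi : i < k + 1), d 0 (i + 1) = g (σ ⟨i, hi⟩) := by
    intro i hi
    rw [hd]
    change (c (p 0) (p (i + 1)) - a).val = _
    rw [hp0, hps i hi hi]
  have hlt : ∀ x y, d x y < m := fun x y => ZMod.val_lt _
  have hcast : ∀ x y, ((d x y : ℕ) : ZMod m) = c (p x) (p y) - a := by
    intro x y
    rw [hd]
    exact ZMod.natCast_zmod_val _
  have hZ : ZN (k + 2) m d := by
    intro u v hu hv huv X Y hX hY hXY huX hvX huY hvY hcard hsum
    have hinjX : Set.InjOn p X := hpinj.mono (by exact_mod_cast hX)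
    have hinjY : Set.InjOn p Y := hpinj.mono (by exact_mod_cast hY)
    have hnm : ∀ (z : ℕ) (Z : Finset ℕ), z < k + 2 → Z ⊆ range (k + 2) → z ∉ Z →
        p z ∉ Z.image p := by
      intro z Z hz hZ hzZ hh
      rw [mem_image] at hh
      obtain ⟨y, hy, hyz⟩ := hh
      have : y = z := hpinj (by simpa using hZ hy) (by simpa using hz) hyz
      exact hzZ (this ▸ hy)
    refine hz (p u) (p v) (fun hh => huv (hpinj (by simpa using hu) (by simpa using hv) hh))
      (X.image p) (Y.image p) ?_ (hnm u X hu hX huX) (hnm v X hv hX hvX) (hnm u Y hu hY huY)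
      (hnm v Y hv hY hvY) ?_ ?_
    · rw [disjoint_left]
      intro z hz1 hz2
      rw [mem_image] at hz1
      obtain ⟨y, hy, rfl⟩ := hz1
      have hyY : y ∉ Y := fun hh => (disjoint_left.mp hXY hy) hh
      exact hnm y Y (by simpa using hX hy) hY hyY hz2
    · rw [card_image_of_injOn hinjX, card_image_of_injOn hinjY]; exact hcard
    · rw [sum_image hinjX, sum_image hinjY]
      have h1 : ((d u v + ∑ x ∈ X, d u x + ∑ y ∈ Y, d v y : ℕ) : ZMod m) = 0 := by
        rw [ZMod.natCast_eq_zero_iff]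
        exact Nat.dvd_of_mod_eq_zero hsum
      push_cast at h1
      simp only [hcast, sum_sub_distrib, sum_const, nsmul_eq_mul] at h1
      have h2 : ((X.card : ℕ) : ZMod m) + (Y.card : ℕ) + 1 = 0 := by
        have : (((X.card + Y.card + 1 : ℕ)) : ZMod m) = 0 := by
          rw [hcard]; exact ZMod.natCast_self m
        exact_mod_cast this
      linear_combination h1 + a * h2
  have h01 : d 0 1 = 0 := by
    have h1 := hd0 0 (by omega)
    have h2 : g (σ ⟨0, by omega⟩) ≤ g (σ (σ.symm 0)) := hmono (Fin.zero_le _)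
    rw [Equiv.apply_symm_apply] at h2
    have h3 : g 0 = 0 := by rw [hg]; simp [ha]
    rw [h3] at h2
    rw [Nat.zero_add] at h1
    omega
  have hsort : ∀ i, 1 ≤ i → i + 1 < k + 2 → d 0 i ≤ d 0 (i + 1) := by
    intro i h1 h2
    obtain ⟨j, rfl⟩ : ∃ j, i = j + 1 := ⟨i - 1, by omega⟩
    rw [hd0 j (by omega), hd0 (j + 1) (by omega)]
    exact hmono (by rw [Fin.mk_le_mk]; omega)
  have hsym : ∀ x y, x < k + 2 → y < k + 2 → d x y = d y x := by
    intro x y _ _
    rw [hd]
    change (c (p x) (p y) - a).val = (c (p y) (p x) - a).val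
    rw [hs]
  exact chk_spec hm hsym hlt hZ h01 hsort l [0] h 0 (by simp)
    (fun u v _ _ => Or.inl (gt_zero _ u v))

end ZS44129.Small
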