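import Mathlib
import Pool.Agent.Work.MP_44129c_co.Small.Chk

/-!
# MP_44129c_co, small case N = 6, m = 4 (helper24)

No symmetric colouring of `K_6` by `ZMod 4` is `ZSF`.  The list `tok` is the preorder of a search
tree with 181 tokens (see `Small.Chk`); it was found by a program, the kernel checks it.
-/

set_option autoImplicit false
set_option maxRecDepth 100000

namespace ZS44129.Small.C64

def tok0 : List ℕ := [65, 129, 193, 257, 86272, 321, 18, 261, 425988, 265, 401416, 2117648,
  2244624, 2490376, 2232336, 2490372, 261, 425988, 2232336, 2490372, 167952, 344384, 321, 18, 18,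
  344384, 261, 425988, 2490372, 167952, 2232336, 321, 18, 18, 18, 261, 425988, 2490372, 2232336,
  265, 401416, 2490376, 2244624, 2117648, 257, 14, 321, 18, 197, 261, 360452, 2232336, 2490372,
  2424836, 2625548, 2686980, 2195460, 344384, 282944, 321, 18, 18, 282944, 86336, 86272, 257, 14,
  14, 86272, 321, 18, 18, 18, 344384, 257, 14, 14, 14, 321, 18, 18, 18, 197, 261, 360452,
  2424836, 2490372, 2232336, 2195460, 2686980, 2625548, 193, 10, 257, 14, 321, 18, 344384,
  332096, 133, 2637828, 659464, 671748, 2625544, 86272, 321, 18, 18, 18, 344384, 257, 14, 14,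
  321, 18, 18, 197, 2686980, 2195460, 2625548, 2134028, 344384, 321, 18, 18, 18, 332096, 257, 14,
  14, 14, 321, 18, 18, 18, 197, 2195460, 2134028, 2686980, 2625548, 193, 10, 10, 257, 14, 14,
  321, 18, 18, 344384, 133, 671748, 2625544, 659464, 2637828, 321, 18, 18, 18, 332096, 257, 14,
  14, 14, 86272, 193, 10, 10, 10, 257, 14, 14, 14, 321, 18, 18, 18, 344384, 3, 3, 3]

def tok : List ℕ := tok0

theorem chk_tok : chk 6 4 tok [0] = true := by decide +kernel

/-- no `ZSF` colouring of `K_6` by `ZMod 4`. -/
theorem no_zsf (c : Fin 6 → Fin 6 → ZMod 4) (hs : ∀ x y, c x y = c y x) : ¬ ZSF 4 c :=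
  no_zsf_of_chk (n := 5) (by norm_num) (by norm_num) (by norm_num) tok chk_tok c hs

end ZS44129.Small.C64
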