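import Mathlib
import Pool.Agent.Work.MP_44129c_co.Defs
import Pool.Agent.Work.MP_44129c_co.Small.Chk

/-!
# MP_44129c_co, small cases by a certificate, stronger symmetry breaking (helper24)

Normalised colourings `Nrm N m d`: the edge `01` has colour `0`, the star of `0` has the largest
code among all vertices, translations by a colour of the star and units, and the columns are
lexicographically increasing.  `chk2 N m R l S = true` implies that no normalised zero-sum free
colouring extends a partial colouring of the list `S`, if this is known for the list `R`.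
-/

set_option autoImplicit false

namespace ZS44129.Small

open Finset

/-- code of the star of `v` after the affine map `g ↦ u (g - h)`. -/
def code (N m : ℕ) (d : ℕ → ℕ → ℕ) (v h u : ℕ) : ℕ :=
  ∑ x ∈ (range N).erase v, 16 ^ (m - 1 - (u * (d v x + m - h)) % m)

/-- normalised zero-sum free colourings of `K_N`. -/
structure Nrm (N m : ℕ) (d : ℕ → ℕ → ℕ) : Prop where
  lt : ∀ x y, d x y < m
  symm : ∀ x y, x < N → y < N → d x y = d y x
  zn : ZN N m d
  h01 : d 0 1 = 0
  mx : ∀ v x u, v < N → x < N → v ≠ x → Nat.Coprime u m →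
    code N m d v (d v x) u ≤ code N m d 0 0 1
  lex : ∀ x y j, 2 ≤ x → x < y → y < N → j < x → (∀ i, i < j → d i x = d i y) → d j x ≤ d j y

/-- known part of the code. -/
def ksum (N m A v h u : ℕ) : ℕ → ℕ
  | 0 => 0
  | x + 1 =>
    (match Nat.beq x v with
      | true => 0
      | false => (match gt N A v x with
        | 0 => 0
        | g + 1 => 16 ^ (m - 1 - (u * (g + m - h)) % m))) + ksum N m A v h u x

/-- all entries `(0, 1), ..., (0, x - 1)` are known. -/
def known0 (N A : ℕ) : ℕ → Bool
  | 0 => true
  | x + 1 => match Nat.beq x 0 with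
    | true => true
    | false => and (not (Nat.beq (gt N A 0 x) 0)) (known0 N A x)

/-- number of known edges of colour `h` at `v`. -/
def kcnt (N A v h : ℕ) : ℕ → ℕ
  | 0 => 0
  | x + 1 =>
    match and (not (Nat.beq x v)) (Nat.beq (gt N A v x) (h + 1)) with
    | true => kcnt N A v h x + 1
    | false => kcnt N A v h x

/-- the entries `(i, x)`, `(i, y)`, `i < j`, are known and equal. -/
def eqcol (N A x y : ℕ) : ℕ → Bool
  | 0 => true
  | i + 1 => and (and (not (Nat.beq (gt N A i x) 0)) (Nat.beq (gt N A i x) (gt N A i y)))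
      (eqcol N A x y i)

/-- push with colours `k - 1, ..., k - r`. -/
def pushr (N A u v : ℕ) (S : List ℕ) (k : ℕ) : ℕ → List ℕ
  | 0 => S
  | r + 1 => pushr N A u v (st N A u v (k - 1) :: S) (k - 1) r

/-- lexicographic leaf. -/
def leaf2 (N A t : ℕ) : Bool :=
  let x := t % 16
  let y := t / 16 % 16
  let j := t / 256 % 16
  and (and (and (Nat.blt 1 x) (Nat.blt x y)) (and (Nat.blt y N) (Nat.blt j x)))
    (and (and (not (Nat.beq (gt N A j y) 0)) (Nat.blt (gt N A j y) (gt N A j x)))
      (eqcol N A x y j))

/-- maximality leaf. -/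
def leaf3 (N m A t : ℕ) : Bool :=
  let v := t % 16
  let x := t / 16 % 16
  let u := t / 256 % 16
  and (and (and (Nat.blt v N) (Nat.blt x N)) (and (not (Nat.beq v x)) (not (Nat.beq (gt N A v x) 0))))
    (and (and (Nat.beq (Nat.gcd u m) 1) (known0 N A N))
      (Nat.blt (ksum N m A 0 0 1 N) (ksum N m A v (gt N A v x - 1) u N)))

/-- degree leaf. -/
def leaf4 (N A t : ℕ) : Bool :=
  let x := t % 16
  let v := t / 16 % 16
  let h := t / 256 % 16
  and (and (and (Nat.blt 1 x) (Nat.blt x N)) (and (Nat.blt v N) (Nat.blt 1 (gt N A 0 x))))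
    (Nat.ble x (kcnt N A v h N))

/-- the checker. -/
def chk2 (N m : ℕ) (R : List ℕ) : List ℕ → List ℕ → Bool
  | _, [] => true
  | [], _ :: _ => false
  | t :: l, A :: S =>
    match Nat.land t 7 with
    | 0 => and (leaf N m A (t / 8)) (chk2 N m R l S)
    | 1 => and (and (Nat.blt (t / 8 % 16) N) (Nat.blt (t / 128 % 16) N))
        (chk2 N m R l (push N A (t / 8 % 16) (t / 128 % 16) S m))
    | 2 => and (leaf2 N A (t / 8)) (chk2 N m R l S)
    | 3 => and (leaf3 N m A (t / 8)) (chk2 N m R l S)
    | 4 => and (leaf4 N A (t / 8)) (chk2 N m R l S)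
    | 5 => and (and (and (Nat.blt 1 (t / 8)) (Nat.blt (t / 8 + 1) N))
        (not (Nat.beq (gt N A 0 (t / 8)) 0)))
        (chk2 N m R l (pushr N A 0 (t / 8 + 1) S m (m - (gt N A 0 (t / 8) - 1))))
    | _ => and (Nat.beq A (R.getD (t / 8) 0)) (and (Nat.blt (t / 8) R.length) (chk2 N m R l S))

/-! ### soundness -/

theorem eqcol_spec {N A x y : ℕ} {d : ℕ → ℕ → ℕ} (hG : Good N d A) (hx : x < N) (hy : y < N) :
    ∀ j, j ≤ N → eqcol N A x y j = true → ∀ i, i < j → d i x = d i y := by
  intro j
  induction j with
  | zero => intro _ _ i hi; omega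
  | succ j ih =>
    intro hj h i hi
    rw [eqcol, Bool.and_eq_true, Bool.and_eq_true] at h
    obtain ⟨⟨h1, h2⟩, h3⟩ := h
    rcases Nat.lt_succ_iff_lt_or_eq.mp hi with h4 | h4
    · exact ih (by omega) h3 i h4
    · subst h4
      have h1' := nbne h1
      have h2' := nbeq h2
      have e1 := hG i x (by omega) hx
      have e2 := hG i y (by omega) hy
      omega

theorem leaf2_spec {N m A t : ℕ} {d : ℕ → ℕ → ℕ} (hd : Nrm N m d) (h : leaf2 N A t = true) :
    ¬ Good N d A := by
  intro hG
  unfold leaf2 at h
  simp only [Bool.and_eq_true] at h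
  obtain ⟨⟨⟨h1, h2⟩, h3, h4⟩, ⟨h5, h6⟩, h7⟩ := h
  have h1' := nblt h1
  have h2' := nblt h2
  have h3' := nblt h3
  have h4' := nblt h4
  have h5' := nbne h5
  have h6' := nblt h6
  have e := eqcol_spec hG (by omega) h3' (t / 256 % 16) (by omega) h7
  have k := hd.lex (t % 16) (t / 16 % 16) (t / 256 % 16) (by omega) h2' h3' h4' e
  have e1 := hG (t / 256 % 16) (t % 16) (by omega) (by omega)
  have e2 := hG (t / 256 % 16) (t / 16 % 16) (by omega) h3'
  omega

theorem ksum_le {N m A v h u : ℕ} {d : ℕ → ℕ → ℕ} (hG : Good N d A) (hv : v < N) :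
    ∀ x, x ≤ N → ksum N m A v h u x ≤
      ∑ y ∈ (range x).erase v, 16 ^ (m - 1 - (u * (d v y + m - h)) % m) := by
  intro x
  induction x with
  | zero => intro _; simp [ksum]
  | succ x ih =>
    intro hx
    have ih' := ih (by omega)
    rw [ksum]
    by_cases hxv : x = v
    · subst hxv
      rw [Nat.beq_refl]
      have e : (range (x + 1)).erase x = (range x).erase x := by
        ext z; simp only [mem_erase, mem_range]; omega
      rw [e]
      simpa using ih'
    · have hb : Nat.beq x v = false := by
        rw [Bool.eq_false_iff]; intro hh; exact hxv (nbeq hh)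
      rw [hb]
      have e : (range (x + 1)).erase v = insert x ((range x).erase v) := by
        ext z; simp only [mem_erase, mem_range, mem_insert]; omega
      have hni : x ∉ (range x).erase v := by simp
      rw [e, sum_insert hni]
      refine Nat.add_le_add ?_ ih'
      change (match gt N A v x with
        | 0 => 0
        | g + 1 => 16 ^ (m - 1 - (u * (g + m - h)) % m)) ≤ _
      split
      · exact Nat.zero_le _
      · next g hg =>
        rcases hG v x hv (by omega) with h0 | h0
        · rw [h0] at hg; omega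
        · rw [h0] at hg
          have : g = d v x := by omega
          rw [this]

theorem known0_spec {N A : ℕ} : ∀ x, known0 N A x = true → ∀ y, 1 ≤ y → y < x → gt N A 0 y ≠ 0 := by
  intro x
  induction x with
  | zero => intro _ y _ hy; omega
  | succ x ih =>
    intro h y hy1 hy2
    rw [known0] at h
    by_cases hx : x = 0
    · omega
    · have hb : Nat.beq x 0 = false := by
        rw [Bool.eq_false_iff]; intro hh; exact hx (nbeq hh)
      rw [hb] at h
      change and (not (Nat.beq (gt N A 0 x) 0)) (known0 N A x) = true at h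
      rw [Bool.and_eq_true] at h
      rcases Nat.lt_succ_iff_lt_or_eq.mp hy2 with h4 | h4
      · exact ih h.2 y hy1 h4
      · subst h4; exact nbne h.1

theorem ksum_eq {N m A : ℕ} {d : ℕ → ℕ → ℕ} (hG : Good N d A) (hN : 0 < N)
    (hk : ∀ y, 1 ≤ y → y < N → gt N A 0 y ≠ 0) :
    ∀ x, x ≤ N → ksum N m A 0 0 1 x =
      ∑ y ∈ (range x).erase 0, 16 ^ (m - 1 - (1 * (d 0 y + m - 0)) % m) := by
  intro x
  induction x with
  | zero => intro _; simp [ksum]
  | succ x ih =>
    intro hx
    have ih' := ih (by omega)
    rw [ksum]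
    by_cases hxv : x = 0
    · subst hxv
      rfl
    · have hb : Nat.beq x 0 = false := by
        rw [Bool.eq_false_iff]; intro hh; exact hxv (nbeq hh)
      rw [hb]
      have e : (range (x + 1)).erase 0 = insert x ((range x).erase 0) := by
        ext z; simp only [mem_erase, mem_range, mem_insert]; omega
      have hni : x ∉ (range x).erase 0 := by simp
      rw [e, sum_insert hni, ih']
      congr 1
      change (match gt N A 0 x with
        | 0 => 0
        | g + 1 => 16 ^ (m - 1 - (1 * (g + m - 0)) % m)) = _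
      have h1 := hk x (by omega) (by omega)
      split
      · next h0 => exact absurd h0 h1
      · next g hg =>
        rcases hG 0 x hN (by omega) with h0 | h0
        · exact absurd h0 h1
        · rw [h0] at hg
          have : g = d 0 x := by omega
          rw [this]

theorem leaf3_spec {N m A t : ℕ} {d : ℕ → ℕ → ℕ} (hd : Nrm N m d) (h : leaf3 N m A t = true) :
    ¬ Good N d A := by
  intro hG
  unfold leaf3 at h
  simp only [Bool.and_eq_true] at h
  obtain ⟨⟨⟨h1, h2⟩, h3, h4⟩, ⟨h5, h6⟩, h7⟩ := h
  have h1' := nblt h1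
  have h2' := nblt h2
  have h3' := nbne h3
  have h4' := nbne h4
  have h5' := nbeq h5
  have h7' := nblt h7
  have hgt : gt N A (t % 16) (t / 16 % 16) - 1 = d (t % 16) (t / 16 % 16) := by
    rcases hG _ _ h1' h2' with h0 | h0
    · exact absurd h0 h4'
    · omega
  rw [hgt] at h7'
  have k1 := ksum_le (m := m) (h := d (t % 16) (t / 16 % 16)) (u := t / 256 % 16) hG h1' N
    (le_refl N)
  have k2 := ksum_eq (m := m) hG (by omega) (known0_spec N h6) N (le_refl N)
  have k3 := hd.mx _ _ (t / 256 % 16) h1' h2' h3' h5'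
  unfold code at k3
  omega

theorem kcnt_le {N m A v h : ℕ} {d : ℕ → ℕ → ℕ} (hG : Good N d A) (hv : v < N) :
    ∀ x, x ≤ N → kcnt N A v h x * 16 ^ (m - 1) ≤
      ∑ y ∈ (range x).erase v, 16 ^ (m - 1 - (1 * (d v y + m - h)) % m) := by
  intro x
  induction x with
  | zero => intro _; simp [kcnt]
  | succ x ih =>
    intro hx
    have ih' := ih (by omega)
    rw [kcnt]
    have hsub : ∑ y ∈ (range x).erase v, 16 ^ (m - 1 - (1 * (d v y + m - h)) % m) ≤
        ∑ y ∈ (range (x + 1)).erase v, 16 ^ (m - 1 - (1 * (d v y + m - h)) % m) := by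
      apply sum_le_sum_of_subset
      intro z; simp only [mem_erase, mem_range]; omega
    split
    · next hb =>
      rw [Bool.and_eq_true] at hb
      have hxv := nbne hb.1
      have hg := nbeq hb.2
      have e : (range (x + 1)).erase v = insert x ((range x).erase v) := by
        ext z; simp only [mem_erase, mem_range, mem_insert]; omega
      have hni : x ∉ (range x).erase v := by simp
      rw [e, sum_insert hni]
      have hdx : d v x = h := by
        rcases hG v x hv (by omega) with h0 | h0 <;> omega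
      have h1 : (1 * (d v x + m - h)) % m = 0 := by
        rw [hdx, Nat.one_mul, Nat.add_sub_cancel_left, Nat.mod_self]
      rw [h1, Nat.sub_zero, Nat.succ_mul]
      omega
    · omega

theorem leaf4_spec {N m A t : ℕ} {d : ℕ → ℕ → ℕ} (hN : N ≤ 15) (hm : 2 ≤ m) (hd : Nrm N m d)
    (h : leaf4 N A t = true) : ¬ Good N d A := by
  intro hG
  unfold leaf4 at h
  simp only [Bool.and_eq_true] at h
  obtain ⟨⟨⟨h1, h2⟩, h3, h4⟩, h5⟩ := h
  have h1' := nblt h1
  have h2' := nblt h2
  have h3' := nblt h3
  have h4' := nblt h4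
  have h5' := Nat.le_of_ble_eq_true h5
  set x := t % 16 with hx
  set v := t / 16 % 16 with hv
  set h := t / 256 % 16 with hh
  -- a known edge of colour `h` at `v`
  have hex : ∀ z, z ≤ N → 0 < kcnt N A v h z → ∃ y, y < N ∧ v ≠ y ∧ d v y = h := by
    intro z
    induction z with
    | zero => intro _ hz; simp [kcnt] at hz
    | succ z ih =>
      intro hz hk
      rw [kcnt] at hk
      split at hk
      · next hb =>
        rw [Bool.and_eq_true] at hb
        have hzv := nbne hb.1
        have hg := nbeq hb.2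
        refine ⟨z, by omega, fun hh => hzv hh.symm, ?_⟩
        rcases hG v z h3' (by omega) with h0 | h0 <;> omega
      · exact ih (by omega) hk
  obtain ⟨y, hy1, hy2, hy3⟩ := hex N (le_refl N) (by omega)
  have k1 := hd.mx v y 1 h3' hy1 hy2 (Nat.coprime_one_left m)
  rw [hy3] at k1
  have k2 := kcnt_le (m := m) (h := h) hG h3' N (le_refl N)
  have hx0 : 1 ≤ d 0 x := by
    rcases hG 0 x (by omega) h2' with h0 | h0 <;> omega
  have hge : ∀ z, x ≤ z → z < N → 1 ≤ d 0 z := by
    intro z hz1 hz2
    rcases Nat.lt_or_ge x z with h0 | h0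
    · have := hd.lex x z 0 (by omega) h0 hz2 (by omega) (fun i hi => absurd hi (by omega))
      omega
    · have : z = x := by omega
      rw [this]; exact hx0
  have k3 : code N m d 0 0 1 ≤ (x - 1) * 16 ^ (m - 1) + (N - x) * 16 ^ (m - 2) := by
    unfold code
    have e : (range N).erase 0 = (Finset.Ico 1 x) ∪ (Finset.Ico x N) := by
      ext z; simp only [mem_erase, mem_range, mem_union, Finset.mem_Ico]; omega
    have hdis : Disjoint (Finset.Ico 1 x) (Finset.Ico x N) := by
      rw [disjoint_left]; intro z; simp only [Finset.mem_Ico]; omega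
    rw [e, sum_union hdis]
    refine Nat.add_le_add ?_ ?_
    · have : ∑ z ∈ Finset.Ico 1 x, 16 ^ (m - 1 - (1 * (d 0 z + m - 0)) % m) ≤
          ∑ _z ∈ Finset.Ico 1 x, 16 ^ (m - 1) := by
        apply sum_le_sum
        intro z _
        exact Nat.pow_le_pow_right (by norm_num) (Nat.sub_le _ _)
      refine this.trans ?_
      rw [sum_const, Nat.card_Ico, smul_eq_mul]
    · have : ∑ z ∈ Finset.Ico x N, 16 ^ (m - 1 - (1 * (d 0 z + m - 0)) % m) ≤
          ∑ _z ∈ Finset.Ico x N, 16 ^ (m - 2) := by
        apply sum_le_sum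
        intro z hz
        rw [Finset.mem_Ico] at hz
        have e1 := hge z hz.1 hz.2
        have e2 := hd.lt 0 z
        have e3 : (1 * (d 0 z + m - 0)) % m = d 0 z := by
          rw [Nat.one_mul, Nat.sub_zero, Nat.add_mod_right, Nat.mod_eq_of_lt e2]
        rw [e3]
        exact Nat.pow_le_pow_right (by norm_num) (by omega)
      refine this.trans ?_
      rw [sum_const, Nat.card_Ico, smul_eq_mul]
  have e5 : 16 ^ (m - 1) = 16 * 16 ^ (m - 2) := by
    rw [← pow_succ']; congr 1; omega
  have e6 : x * 16 ^ (m - 1) ≤ (x - 1) * 16 ^ (m - 1) + (N - x) * 16 ^ (m - 2) := by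
    calc x * 16 ^ (m - 1) ≤ kcnt N A v h N * 16 ^ (m - 1) := Nat.mul_le_mul_right _ h5'
      _ ≤ _ := k2
      _ ≤ _ := k1
      _ ≤ _ := k3
  have e7 : x * 16 ^ (m - 1) = (x - 1) * 16 ^ (m - 1) + 16 ^ (m - 1) := by
    obtain ⟨k, hk⟩ : ∃ k, x = k + 1 := ⟨x - 1, by omega⟩
    rw [hk, Nat.add_sub_cancel, Nat.succ_mul]
  have e8 : (N - x) * 16 ^ (m - 2) ≤ 13 * 16 ^ (m - 2) := Nat.mul_le_mul_right _ (by omega)
  have e9 : 0 < 16 ^ (m - 2) := by positivity
  omega

theorem pushr_spec {N : ℕ} {A u v : ℕ} (P : ℕ → Prop) :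
    ∀ r k (S : List ℕ), r ≤ k → (∀ B ∈ pushr N A u v S k r, P B) →
      (∀ g, k - r ≤ g → g < k → P (st N A u v g)) ∧ ∀ B ∈ S, P B := by
  intro r
  induction r with
  | zero => intro k S _ h; exact ⟨fun g h1 h2 => absurd h2 (by omega), h⟩
  | succ r ih =>
    intro k S hk h
    rw [pushr] at h
    obtain ⟨h1, h2⟩ := ih (k - 1) _ (by omega) h
    refine ⟨fun g hg1 hg2 => ?_, fun B hB => h2 B (List.mem_cons_of_mem _ hB)⟩
    rcases Nat.lt_or_ge g (k - 1) with h3 | h3
    · exact h1 g (by omega) h3
    · have : g = k - 1 := by omega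
      rw [this]; exact h2 _ List.mem_cons_self

theorem chk2_spec {N m : ℕ} {d : ℕ → ℕ → ℕ} (hN : N ≤ 15) (hm : 2 ≤ m) (hm2 : m ≤ 14)
    (hd : Nrm N m d) (R : List ℕ) (hR : ∀ B ∈ R, ¬ Good N d B) :
    ∀ l S, chk2 N m R l S = true → ∀ A ∈ S, ¬ Good N d A := by
  intro l
  induction l with
  | nil =>
    intro S h A hA
    cases S with
    | nil => simp at hA
    | cons B S => simp [chk2] at h
  | cons t l ih =>
    intro S h
    cases S with
    | nil => intro A hA; simp at hA
    | cons A S =>
      rw [chk2] at h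
      split at h
      · rw [Bool.and_eq_true] at h
        intro B hB
        rcases List.mem_cons.mp hB with rfl | hB
        · exact leaf_spec hd.zn h.1
        · exact ih S h.2 B hB
      · rw [Bool.and_eq_true, Bool.and_eq_true] at h
        obtain ⟨⟨h1, h2⟩, h3⟩ := h
        have h1' := nblt h1
        have h2' := nblt h2
        obtain ⟨k1, k2⟩ := push_spec S (fun B => ¬ Good N d B) m (ih _ h3)
        intro B hB
        rcases List.mem_cons.mp hB with rfl | hB
        · intro hG
          have hlt' := hd.lt (t / 8 % 16) (t / 128 % 16)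
          exact k1 (d (t / 8 % 16) (t / 128 % 16)) hlt'
            (good_st hG hd.symm h1' h2' (by omega) rfl)
        · exact k2 B hB
      · rw [Bool.and_eq_true] at h
        intro B hB
        rcases List.mem_cons.mp hB with rfl | hB
        · exact leaf2_spec hd h.1
        · exact ih S h.2 B hB
      · rw [Bool.and_eq_true] at h
        intro B hB
        rcases List.mem_cons.mp hB with rfl | hB
        · exact leaf3_spec hd h.1
        · exact ih S h.2 B hB
      · rw [Bool.and_eq_true] at h
        intro B hB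
        rcases List.mem_cons.mp hB with rfl | hB
        · exact leaf4_spec hN hm hd h.1
        · exact ih S h.2 B hB
      · rw [Bool.and_eq_true, Bool.and_eq_true, Bool.and_eq_true] at h
        obtain ⟨⟨⟨h1, h2⟩, h3⟩, h4⟩ := h
        have h1' := nblt h1
        have h2' := nblt h2
        have h3' := nbne h3
        obtain ⟨k1, k2⟩ := pushr_spec (fun B => ¬ Good N d B)
          (m - (gt N A 0 (t / 8) - 1)) m S (by omega) (ih _ h4)
        intro B hB
        rcases List.mem_cons.mp hB with rfl | hB
        · intro hG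
          have hlt' := hd.lt 0 (t / 8 + 1)
          have e1 := hG 0 (t / 8) (by omega) (by omega)
          have e2 := hd.lex (t / 8) (t / 8 + 1) 0 (by omega) (by omega) h2' (by omega)
            (fun i hi => absurd hi (by omega))
          exact k1 (d 0 (t / 8 + 1)) (by omega) hlt'
            (good_st hG hd.symm (by omega) h2' (by omega) rfl)
        · exact k2 B hB
      · rw [Bool.and_eq_true, Bool.and_eq_true] at h
        obtain ⟨h1, h2, h3⟩ := h
        have h1' := nbeq h1
        have h2' := nblt h2
        intro B hB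
        rcases List.mem_cons.mp hB with rfl | hB
        · rw [h1']
          apply hR
          rw [List.getD_eq_getElem _ _ h2']
          exact List.getElem_mem h2'
        · exact ih S h3 B hB

/-- `A` is refuted. -/
def Ref (N m A : ℕ) : Prop := ∀ d, Nrm N m d → ¬ Good N d A

theorem ref_of_chk2 {N m : ℕ} (hN : N ≤ 15) (hm : 2 ≤ m) (hm2 : m ≤ 14) (R : List ℕ)
    (hR : ∀ B ∈ R, Ref N m B) (l S : List ℕ) (h : chk2 N m R l S = true) :
    ∀ A ∈ S, Ref N m A :=
  fun A hA d hd => chk2_spec hN hm hm2 hd R (fun B hB => hR B hB d hd) l S h A hA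

end ZS44129.Small
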