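import Mathlib
import Pool.Agent.Work.MP_44129c_co.Defs
import Pool.Agent.Work.MP_44129c_co.Small.Chk2

/-!
# MP_44129c_co, small cases: existence of a normalised colouring (helper24)
-/

set_option autoImplicit false

namespace ZS44129.Small

open Finset

section

variable {n m : ℕ} [NeZero m]

/-- the relabelled and rescaled colouring. -/
def DD (c : Fin (n + 2) → Fin (n + 2) → ZMod m) (π : Equiv.Perm (Fin (n + 2))) (u : ZMod m)
    (x y : ℕ) : ℕ :=
  (u * (c (π (Fin.ofNat (n + 2) x)) (π (Fin.ofNat (n + 2) y)) - c (π 0) (π 1))).val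

/-- the code of a vertex. -/
def CC (c : Fin (n + 2) → Fin (n + 2) → ZMod m) (v w : Fin (n + 2)) (u : ZMod m) : ℕ :=
  ∑ z ∈ univ.erase v, 16 ^ (m - 1 - (u * (c v z - c v w)).val)

/-- the word of a labelling. -/
def word (c : Fin (n + 2) → Fin (n + 2) → ZMod m) (u : ZMod m) (π : Equiv.Perm (Fin (n + 2)))
    (k : Fin ((n + 2) * (n + 2))) : ℕ :=
  if k.val % (n + 2) < k.val / (n + 2) then DD c π u (k.val % (n + 2)) (k.val / (n + 2)) else 0

theorem pinj (π : Equiv.Perm (Fin (n + 2))) :
    Set.InjOn (fun x : ℕ => π (Fin.ofNat (n + 2) x)) (range (n + 2) : Finset ℕ) := by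
  intro x hx y hy hxy
  have h1 := π.injective hxy
  have hx' : x < n + 2 := by simpa using hx
  have hy' : y < n + 2 := by simpa using hy
  have h2 : (Fin.ofNat (n + 2) x).val = (Fin.ofNat (n + 2) y).val := by rw [h1]
  simpa [Fin.ofNat, Nat.mod_eq_of_lt hx', Nat.mod_eq_of_lt hy'] using h2

theorem DD_cast (c : Fin (n + 2) → Fin (n + 2) → ZMod m) (π : Equiv.Perm (Fin (n + 2)))
    (u : ZMod m) (x y : ℕ) : ((DD c π u x y : ℕ) : ZMod m) =
      u * (c (π (Fin.ofNat (n + 2) x)) (π (Fin.ofNat (n + 2) y)) - c (π 0) (π 1)) :=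
  ZMod.natCast_zmod_val _

theorem code_eq (c : Fin (n + 2) → Fin (n + 2) → ZMod m) (π : Equiv.Perm (Fin (n + 2)))
    (u : ZMod m) (v x u' : ℕ) (hv : v < n + 2) :
    code (n + 2) m (DD c π u) v (DD c π u v x) u' =
      CC c (π (Fin.ofNat (n + 2) v)) (π (Fin.ofNat (n + 2) x)) (u' * u) := by
  unfold code CC
  have himg : univ.erase (π (Fin.ofNat (n + 2) v)) =
      ((range (n + 2)).erase v).image (fun x : ℕ => π (Fin.ofNat (n + 2) x)) := by
    ext z
    simp only [mem_erase, mem_univ, and_true, mem_image, mem_range, ne_eq]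
    constructor
    · intro hz
      refine ⟨(π.symm z).val, ⟨?_, (π.symm z).isLt⟩, ?_⟩
      · intro hh
        apply hz
        rw [← hh]
        simp
      · simp
    · rintro ⟨y, ⟨hy1, hy2⟩, rfl⟩ hh
      exact hy1 (pinj π (by simpa using hy2) (by simpa using hv) hh)
  rw [himg, sum_image]
  · apply sum_congr rfl
    intro y _
    congr 2
    have h1 : DD c π u v x < m := ZMod.val_lt _
    have h2 : ((u' * (DD c π u v y + m - DD c π u v x) : ℕ) : ZMod m) =
        (u' : ZMod m) * u * (c (π (Fin.ofNat (n + 2) v)) (π (Fin.ofNat (n + 2) y)) -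
          c (π (Fin.ofNat (n + 2) v)) (π (Fin.ofNat (n + 2) x))) := by
      rw [Nat.cast_mul, Nat.cast_sub (by omega), Nat.cast_add, DD_cast, DD_cast, ZMod.natCast_self]
      ring
    rw [← h2, ZMod.val_natCast]
  · exact (pinj π).mono (by
      intro z hz
      have hz' : z ∈ (range (n + 2)).erase v := by exact_mod_cast hz
      have := (mem_erase.mp hz').2
      exact_mod_cast this)

theorem DD_zn (c : Fin (n + 2) → Fin (n + 2) → ZMod m) (hz : ZSF m c)
    (π : Equiv.Perm (Fin (n + 2))) (u : (ZMod m)ˣ) : ZN (n + 2) m (DD c π u) := by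
  intro a b ha hb hab X Y hX hY hXY haX hbX haY hbY hcard hsum
  set p : ℕ → Fin (n + 2) := fun x => π (Fin.ofNat (n + 2) x) with hp
  have hpinj : Set.InjOn p (range (n + 2) : Finset ℕ) := pinj π
  have hinjX : Set.InjOn p X := hpinj.mono (by exact_mod_cast hX)
  have hinjY : Set.InjOn p Y := hpinj.mono (by exact_mod_cast hY)
  have hnm : ∀ (z : ℕ) (Z : Finset ℕ), z < n + 2 → Z ⊆ range (n + 2) → z ∉ Z →
      p z ∉ Z.image p := by
    intro z Z hz hZ hzZ hh
    rw [mem_image] at hh
    obtain ⟨y, hy, hyz⟩ := hh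
    have : y = z := hpinj (by simpa using hZ hy) (by simpa using hz) hyz
    exact hzZ (this ▸ hy)
  refine hz (p a) (p b) (fun hh => hab (hpinj (by simpa using ha) (by simpa using hb) hh))
    (X.image p) (Y.image p) ?_ (hnm a X ha hX haX) (hnm b X hb hX hbX) (hnm a Y ha hY haY)
    (hnm b Y hb hY hbY) ?_ ?_
  · rw [disjoint_left]
    intro z hz1 hz2
    rw [mem_image] at hz1
    obtain ⟨y, hy, rfl⟩ := hz1
    have hyY : y ∉ Y := fun hh => (disjoint_left.mp hXY hy) hh
    exact hnm y Y (by simpa using hX hy) hY hyY hz2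
  · rw [card_image_of_injOn hinjX, card_image_of_injOn hinjY]; exact hcard
  · rw [sum_image hinjX, sum_image hinjY]
    have h1 : ((DD c π u a b + ∑ x ∈ X, DD c π u a x + ∑ y ∈ Y, DD c π u b y : ℕ) : ZMod m)
        = 0 := by
      rw [ZMod.natCast_eq_zero_iff]
      exact Nat.dvd_of_mod_eq_zero hsum
    push_cast at h1
    simp only [DD_cast, ← mul_sum, sum_sub_distrib, sum_const, nsmul_eq_mul] at h1
    have h2 : ((X.card : ℕ) : ZMod m) + (Y.card : ℕ) + 1 = 0 := by
      have : (((X.card + Y.card + 1 : ℕ)) : ZMod m) = 0 := by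
        rw [hcard]; exact ZMod.natCast_self m
      exact_mod_cast this
    have h3 : (u : ZMod m) * (c (p a) (p b) + ∑ x ∈ X, c (p a) (p x) + ∑ y ∈ Y, c (p b) (p y))
        = 0 := by
      linear_combination h1 + (u : ZMod m) * c (π 0) (π 1) * h2
    have h4 := congrArg (fun z => ((u⁻¹ : (ZMod m)ˣ) : ZMod m) * z) h3
    simpa using h4

/-- a zero-sum free colouring gives a normalised one. -/
theorem exists_nrm (c : Fin (n + 2) → Fin (n + 2) → ZMod m) (hs : ∀ x y, c x y = c y x)
    (hz : ZSF m c) : ∃ d, Nrm (n + 2) m d := by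
  classical
  -- the maximal code
  set T : Finset (Fin (n + 2) × Fin (n + 2) × (ZMod m)ˣ) := univ.filter (fun t => t.1 ≠ t.2.1)
    with hT
  have h01 : (0 : Fin (n + 2)) ≠ 1 := by
    intro h
    have := congrArg Fin.val h
    simp at this
  have hTne : T.Nonempty := ⟨(0, 1, 1), by rw [hT, mem_filter]; exact ⟨mem_univ _, h01⟩⟩
  obtain ⟨⟨v0, w0, u0⟩, ht0, hmax⟩ := exists_max_image T
    (fun t => CC c t.1 t.2.1 (t.2.2 : ZMod m)) hTne
  have hvw : v0 ≠ w0 := by
    rw [hT, mem_filter] at ht0; exact ht0.2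
  -- permutations with the right start
  set P : Finset (Equiv.Perm (Fin (n + 2))) := univ.filter (fun π => π 0 = v0 ∧ π 1 = w0) with hP
  have hPne : P.Nonempty := by
    set z := Equiv.swap 0 v0 w0 with hz'
    have hz0 : z ≠ 0 := by
      intro hh
      have h1 : Equiv.swap 0 v0 z = w0 := by rw [hz', Equiv.swap_apply_self]
      rw [hh, Equiv.swap_apply_left] at h1
      exact hvw h1
    refine ⟨(Equiv.swap 1 z).trans (Equiv.swap 0 v0), ?_⟩
    rw [hP, mem_filter]
    refine ⟨mem_univ _, ?_, ?_⟩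
    · rw [Equiv.trans_apply, Equiv.swap_apply_of_ne_of_ne h01 (fun hh => hz0 hh.symm),
        Equiv.swap_apply_left]
    · rw [Equiv.trans_apply, Equiv.swap_apply_left, hz', Equiv.swap_apply_self]
  obtain ⟨π, hπ, hmin⟩ := exists_min_image P (fun π => toLex (word c (u0 : ZMod m) π)) hPne
  rw [hP, mem_filter] at hπ
  obtain ⟨-, hπ0, hπ1⟩ := hπ
  have hF0 : Fin.ofNat (n + 2) 0 = 0 := rfl
  have hF1 : Fin.ofNat (n + 2) 1 = 1 := rfl
  have hd01 : DD c π (u0 : ZMod m) 0 1 = 0 := by
    unfold DD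
    rw [hF0, hF1, sub_self, mul_zero, ZMod.val_zero]
  refine ⟨DD c π (u0 : ZMod m), ?_, ?_, DD_zn c hz π u0, hd01, ?_, ?_⟩
  · intro x y; exact ZMod.val_lt _
  · intro x y _ _
    unfold DD
    rw [hs (π (Fin.ofNat (n + 2) x))]
  · intro v x u hv hx hvx hu
    have e1 : code (n + 2) m (DD c π (u0 : ZMod m)) 0 0 1 = CC c v0 w0 (u0 : ZMod m) := by
      have := code_eq c π (u0 : ZMod m) 0 1 1 (by omega)
      rw [hd01, hF0, hF1, hπ0, hπ1] at this
      simpa using this
    rw [code_eq c π (u0 : ZMod m) v x u hv, e1]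
    have hne : π (Fin.ofNat (n + 2) v) ≠ π (Fin.ofNat (n + 2) x) := fun hh =>
      hvx (pinj π (by simpa using hv) (by simpa using hx) hh)
    have h1 := hmax (π (Fin.ofNat (n + 2) v), π (Fin.ofNat (n + 2) x),
      ZMod.unitOfCoprime u hu * u0) (by rw [hT, mem_filter]; exact ⟨mem_univ _, hne⟩)
    simpa using h1
  · intro x y j hx hxy hy hjx heq
    by_contra hcon
    push Not at hcon
    -- swap x and y
    set X : Fin (n + 2) := Fin.ofNat (n + 2) x with hX
    set Y : Fin (n + 2) := Fin.ofNat (n + 2) y with hY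
    set π' : Equiv.Perm (Fin (n + 2)) := (Equiv.swap X Y).trans π with hπ'
    have hofne : ∀ a b : ℕ, a < n + 2 → b < n + 2 → a ≠ b →
        Fin.ofNat (n + 2) a ≠ Fin.ofNat (n + 2) b := by
      intro a b ha hb hab hh
      apply hab
      have h2 : (Fin.ofNat (n + 2) a).val = (Fin.ofNat (n + 2) b).val := by rw [hh]
      simpa [Fin.ofNat, Nat.mod_eq_of_lt ha, Nat.mod_eq_of_lt hb] using h2
    have hfix : ∀ a : ℕ, a < x → π' (Fin.ofNat (n + 2) a) = π (Fin.ofNat (n + 2) a) := by
      intro a ha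
      rw [hπ', Equiv.trans_apply, Equiv.swap_apply_of_ne_of_ne]
      · exact hofne a x (by omega) (by omega) (by omega)
      · exact hofne a y (by omega) (by omega) (by omega)
    have hπ'0 : π' 0 = π 0 := by
      have := hfix 0 (by omega); rwa [hF0] at this
    have hπ'1 : π' 1 = π 1 := by
      have := hfix 1 (by omega); rwa [hF1] at this
    have hπ'x : π' X = π Y := by rw [hπ', Equiv.trans_apply, Equiv.swap_apply_left]
    have hDfix : ∀ a b : ℕ, a < x → b < x → DD c π' (u0 : ZMod m) a b = DD c π (u0 : ZMod m) a b := by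
      intro a b ha hb
      unfold DD
      rw [hfix a ha, hfix b hb, hπ'0, hπ'1]
    have hDx : ∀ a : ℕ, a < x → DD c π' (u0 : ZMod m) a x = DD c π (u0 : ZMod m) a y := by
      intro a ha
      unfold DD
      rw [hfix a ha, ← hX, ← hY, hπ'x, hπ'0, hπ'1]
    have hmem : π' ∈ P := by
      rw [hP, mem_filter]; exact ⟨mem_univ _, by rw [hπ'0, hπ0], by rw [hπ'1, hπ1]⟩
    have hle := hmin π' hmem
    have hNx : (n + 2) * x + j < (n + 2) * (n + 2) := by
      have : (n + 2) * (x + 1) ≤ (n + 2) * (n + 2) := Nat.mul_le_mul_left _ (by omega)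
      rw [Nat.mul_add] at this
      omega
    have hlt : toLex (word c (u0 : ZMod m) π') < toLex (word c (u0 : ZMod m) π) := by
      refine ⟨⟨(n + 2) * x + j, hNx⟩, ?_, ?_⟩
      · intro k hk
        change word c (u0 : ZMod m) π' k = word c (u0 : ZMod m) π k
        have hk' : k.val < (n + 2) * x + j := hk
        unfold word
        split
        · next hrq =>
          have hq : k.val / (n + 2) ≤ x := by
            have : k.val / (n + 2) < x + 1 := by
              rw [Nat.div_lt_iff_lt_mul (by omega)]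
              have e : (x + 1) * (n + 2) = (n + 2) * x + (n + 2) := by ring
              rw [e]
              omega
            omega
          rcases Nat.lt_or_ge (k.val / (n + 2)) x with hqx | hqx
          · exact hDfix _ _ (by omega) hqx
          · have hqe : k.val / (n + 2) = x := by omega
            have hr : k.val % (n + 2) < j := by
              have := Nat.div_add_mod k.val (n + 2)
              rw [hqe] at this
              omega
            rw [hqe, hDx _ (by omega), heq _ hr]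
        · rfl
      · change word c (u0 : ZMod m) π' ⟨(n + 2) * x + j, hNx⟩ <
          word c (u0 : ZMod m) π ⟨(n + 2) * x + j, hNx⟩
        unfold word
        have e1 : ((n + 2) * x + j) % (n + 2) = j := by
          rw [Nat.mul_add_mod]; exact Nat.mod_eq_of_lt (by omega)
        have e2 : ((n + 2) * x + j) / (n + 2) = x := by
          rw [Nat.mul_add_div (by omega), Nat.div_eq_of_lt (show j < n + 2 by omega)]; omega
        simp only [e1, e2]
        rw [if_pos hjx, if_pos hjx, hDx j hjx]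
        exact hcon
    exact absurd hlt (not_lt.mpr hle)

end

theorem no_zsf_of_ref {n m : ℕ} (hm : 2 ≤ m) (hm2 : m ≤ 14)
    (h : Ref (n + 2) m (st (n + 2) 0 0 1 0))
    (c : Fin (n + 2) → Fin (n + 2) → ZMod m) (hs : ∀ x y, c x y = c y x) : ¬ ZSF m c := by
  intro hz
  have _ : NeZero m := ⟨by omega⟩
  obtain ⟨d, hd⟩ := exists_nrm c hs hz
  exact h d hd (good_st (fun u v _ _ => Or.inl (gt_zero _ u v)) hd.symm (by omega) (by omega)
    (by omega) hd.h01)

end ZS44129.Small
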