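import Mathlib
import Pool.Agent.Work.MP_44129c_co.Small.Chk2
import Pool.Agent.Work.MP_44129c_co.Small.Norm

/-!
# MP_44129c_co, small cases: the checker `chk2` with recursors (faster in the kernel) (helper24)
-/

set_option autoImplicit false

namespace ZS44129.Small

/-- `lchk` by recursors. -/
noncomputable def lchk3 (N m A u v w x : ℕ) : ℕ → ℕ → Bool :=
  Nat.rec (motive := fun _ => ℕ → ℕ → Bool)
    (fun cnt s => and (Nat.beq (cnt + 1) m) (Nat.beq (s % m) 0))
    (fun x ih cnt s =>
      Nat.rec (motive := fun _ => Bool) (ih cnt s)
        (fun k _ => Nat.rec (motive := fun _ => Bool)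
          (Nat.rec (motive := fun _ => Bool) false
            (fun g _ => and (and (not (Nat.beq x u)) (not (Nat.beq x v))) (ih (cnt + 1) (s + g)))
            (gt N A u x))
          (fun _ _ => Nat.rec (motive := fun _ => Bool) false
            (fun g _ => and (and (not (Nat.beq x u)) (not (Nat.beq x v))) (ih (cnt + 1) (s + g)))
            (gt N A v x)) k)
        (Nat.land (Nat.shiftRight w (2 * x)) 3)) x

theorem lchk3_eq (N m A u v w : ℕ) : ∀ x cnt s,
    lchk3 N m A u v w x cnt s = lchk N m A u v w x cnt s := by
  intro x
  induction x with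
  | zero => intro cnt s; rfl
  | succ x ih =>
    intro cnt s
    have e1 : lchk3 N m A u v w (x + 1) cnt s =
      Nat.rec (motive := fun _ => Bool) (lchk3 N m A u v w x cnt s)
        (fun k _ => Nat.rec (motive := fun _ => Bool)
          (Nat.rec (motive := fun _ => Bool) false
            (fun g _ => and (and (not (Nat.beq x u)) (not (Nat.beq x v)))
              (lchk3 N m A u v w x (cnt + 1) (s + g)))
            (gt N A u x))
          (fun _ _ => Nat.rec (motive := fun _ => Bool) false
            (fun g _ => and (and (not (Nat.beq x u)) (not (Nat.beq x v)))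
              (lchk3 N m A u v w x (cnt + 1) (s + g)))
            (gt N A v x)) k)
        (Nat.land (Nat.shiftRight w (2 * x)) 3) := rfl
    rw [e1, lchk]
    simp only [ih]
    rcases h : Nat.land (Nat.shiftRight w (2 * x)) 3 with _ | _ | k
    · rfl
    · rcases hg : gt N A u x with _ | g
      · simp [Nat.beq]
      · simp [Nat.beq]
    · rcases hg : gt N A v x with _ | g
      · simp [Nat.beq]
      · simp [Nat.beq]

/-- `leaf` with `lchk3`. -/
noncomputable def leafq (N m A t : ℕ) : Bool :=
  and (and (Nat.blt (t % 16) N) (and (Nat.blt (t / 16 % 16) N) (not (Nat.beq (t % 16) (t / 16 % 16)))))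
    (Nat.rec (motive := fun _ => Bool) false
      (fun g _ => lchk3 N m A (t % 16) (t / 16 % 16) (t / 256) N 0 g)
      (gt N A (t % 16) (t / 16 % 16)))

theorem leafq_imp {N m A t : ℕ} (h : leafq N m A t = true) : leaf N m A t = true := by
  unfold leafq at h
  unfold leaf
  rcases hg : gt N A (t % 16) (t / 16 % 16) with _ | g
  · rw [hg] at h; simp at h
  · rw [hg] at h
    simp only [Bool.and_eq_true] at h
    obtain ⟨⟨h1, h2, h3⟩, h4⟩ := h
    simp only [hg, Bool.and_eq_true]
    refine ⟨⟨⟨h1, h2⟩, h3, ?_⟩, ?_⟩
    · simp [Nat.beq]
    · rw [← lchk3_eq]; simpa using h4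

/-- `push` by recursors. -/
noncomputable def pushq (N A u v k : ℕ) : List ℕ → List ℕ :=
  Nat.rec (motive := fun _ => List ℕ → List ℕ) (fun S => S)
    (fun g ih S => ih (st N A u v g :: S)) k

theorem pushq_eq (N A u v : ℕ) : ∀ k S, pushq N A u v k S = push N A u v S k := by
  intro k
  induction k with
  | zero => intro S; rfl
  | succ k ih =>
    intro S
    change pushq N A u v k (st N A u v k :: S) = _
    rw [ih, push]

/-- the checker by recursors. -/
noncomputable def chk3 (N m : ℕ) (R l : List ℕ) : List ℕ → Bool :=
  List.rec (motive := fun _ => List ℕ → Bool)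
    (fun S => List.rec (motive := fun _ => Bool) true (fun _ _ _ => false) S)
    (fun t _ ih S => List.rec (motive := fun _ => Bool) true
      (fun A S' _ =>
        Nat.rec (motive := fun _ => Bool) (and (leafq N m A (t / 8)) (ih S'))
          (fun k _ => Nat.rec (motive := fun _ => Bool)
            (and (and (Nat.blt (t / 8 % 16) N) (Nat.blt (t / 128 % 16) N))
              (ih (pushq N A (t / 8 % 16) (t / 128 % 16) m S')))
            (fun k _ => Nat.rec (motive := fun _ => Bool) (and (leaf2 N A (t / 8)) (ih S'))
              (fun k _ => Nat.rec (motive := fun _ => Bool) (and (leaf3 N m A (t / 8)) (ih S'))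
                (fun k _ => Nat.rec (motive := fun _ => Bool) (and (leaf4 N A (t / 8)) (ih S'))
                  (fun k _ => Nat.rec (motive := fun _ => Bool)
                    (and (and (and (Nat.blt 1 (t / 8)) (Nat.blt (t / 8 + 1) N))
                      (not (Nat.beq (gt N A 0 (t / 8)) 0)))
                      (ih (pushr N A 0 (t / 8 + 1) S' m (m - (gt N A 0 (t / 8) - 1)))))
                    (fun _ _ => and (Nat.beq A (R.getD (t / 8) 0))
                      (and (Nat.blt (t / 8) R.length) (ih S'))) k) k) k) k) k)
          (Nat.land t 7)) S) l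

theorem chk3_imp (N m : ℕ) (R : List ℕ) : ∀ l S, chk3 N m R l S = true →
    chk2 N m R l S = true := by
  intro l
  induction l with
  | nil =>
    intro S h
    cases S with
    | nil => rw [chk2]
    | cons A S => exact absurd h (by change ¬ (false = true); simp)
  | cons t l ih =>
    intro S h
    cases S with
    | nil => rw [chk2]
    | cons A S =>
      have e1 : chk3 N m R (t :: l) (A :: S) =
        Nat.rec (motive := fun _ => Bool) (and (leafq N m A (t / 8)) (chk3 N m R l S))
          (fun k _ => Nat.rec (motive := fun _ => Bool)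
            (and (and (Nat.blt (t / 8 % 16) N) (Nat.blt (t / 128 % 16) N))
              (chk3 N m R l (pushq N A (t / 8 % 16) (t / 128 % 16) m S)))
            (fun k _ => Nat.rec (motive := fun _ => Bool)
              (and (leaf2 N A (t / 8)) (chk3 N m R l S))
              (fun k _ => Nat.rec (motive := fun _ => Bool)
                (and (leaf3 N m A (t / 8)) (chk3 N m R l S))
                (fun k _ => Nat.rec (motive := fun _ => Bool)
                  (and (leaf4 N A (t / 8)) (chk3 N m R l S))
                  (fun k _ => Nat.rec (motive := fun _ => Bool)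
                    (and (and (and (Nat.blt 1 (t / 8)) (Nat.blt (t / 8 + 1) N))
                      (not (Nat.beq (gt N A 0 (t / 8)) 0)))
                      (chk3 N m R l (pushr N A 0 (t / 8 + 1) S m (m - (gt N A 0 (t / 8) - 1)))))
                    (fun _ _ => and (Nat.beq A (R.getD (t / 8) 0))
                      (and (Nat.blt (t / 8) R.length) (chk3 N m R l S))) k) k) k) k) k)
          (Nat.land t 7) := rfl
      rw [e1] at h
      rw [chk2]
      rcases hk : Nat.land t 7 with _ | _ | _ | _ | _ | _ | k
      · rw [hk] at h
        change and (leafq N m A (t / 8)) (chk3 N m R l S) = true at h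
        change and (leaf N m A (t / 8)) (chk2 N m R l S) = true
        rw [Bool.and_eq_true] at h ⊢
        exact ⟨leafq_imp h.1, ih S h.2⟩
      · rw [hk] at h
        change and (and (Nat.blt (t / 8 % 16) N) (Nat.blt (t / 128 % 16) N))
              (chk3 N m R l (pushq N A (t / 8 % 16) (t / 128 % 16) m S)) = true at h
        change and (and (Nat.blt (t / 8 % 16) N) (Nat.blt (t / 128 % 16) N))
              (chk2 N m R l (push N A (t / 8 % 16) (t / 128 % 16) S m)) = true
        rw [Bool.and_eq_true] at h ⊢
        rw [pushq_eq] at h
        exact ⟨h.1, ih _ h.2⟩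
      · rw [hk] at h
        change and (leaf2 N A (t / 8)) (chk3 N m R l S) = true at h
        change and (leaf2 N A (t / 8)) (chk2 N m R l S) = true
        rw [Bool.and_eq_true] at h ⊢
        exact ⟨h.1, ih S h.2⟩
      · rw [hk] at h
        change and (leaf3 N m A (t / 8)) (chk3 N m R l S) = true at h
        change and (leaf3 N m A (t / 8)) (chk2 N m R l S) = true
        rw [Bool.and_eq_true] at h ⊢
        exact ⟨h.1, ih S h.2⟩
      · rw [hk] at h
        change and (leaf4 N A (t / 8)) (chk3 N m R l S) = true at h
        change and (leaf4 N A (t / 8)) (chk2 N m R l S) = true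
        rw [Bool.and_eq_true] at h ⊢
        exact ⟨h.1, ih S h.2⟩
      · rw [hk] at h
        change and (and (and (Nat.blt 1 (t / 8)) (Nat.blt (t / 8 + 1) N))
                      (not (Nat.beq (gt N A 0 (t / 8)) 0)))
                      (chk3 N m R l (pushr N A 0 (t / 8 + 1) S m (m - (gt N A 0 (t / 8) - 1))))
                      = true at h
        change and (and (and (Nat.blt 1 (t / 8)) (Nat.blt (t / 8 + 1) N))
                      (not (Nat.beq (gt N A 0 (t / 8)) 0)))
                      (chk2 N m R l (pushr N A 0 (t / 8 + 1) S m (m - (gt N A 0 (t / 8) - 1))))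
                      = true
        rw [Bool.and_eq_true] at h ⊢
        exact ⟨h.1, ih _ h.2⟩
      · rw [hk] at h
        change and (Nat.beq A (R.getD (t / 8) 0))
                      (and (Nat.blt (t / 8) R.length) (chk3 N m R l S)) = true at h
        change and (Nat.beq A (R.getD (t / 8) 0))
                      (and (Nat.blt (t / 8) R.length) (chk2 N m R l S)) = true
        rw [Bool.and_eq_true, Bool.and_eq_true] at h ⊢
        exact ⟨h.1, h.2.1, ih S h.2.2⟩

theorem ref_of_chk3 {N m : ℕ} (hN : N ≤ 15) (hm : 2 ≤ m) (hm2 : m ≤ 14) (R : List ℕ)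
    (hR : ∀ B ∈ R, Ref N m B) (l S : List ℕ) (h : chk3 N m R l S = true) :
    ∀ A ∈ S, Ref N m A :=
  ref_of_chk2 hN hm hm2 R hR l S (chk3_imp N m R l S h)

end ZS44129.Small
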